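import Pool.Agent.Lib.MP_e4c5f9_co.Main

set_option autoImplicit false

namespace Pool.Agent.Results.MP_e4c5f9_co.NotLogConcave

open Pool.Agent.Lib.MP_e4c5f9_co

theorem max_card {a b : ℕ} (s : Finset (V a b))
    (hs : Maximal (G a b).IsIndepSet (s : Set (V a b))) : s.card = (a + b) * 3 := by
  refine card_maximal s hs.1 fun v hv h => hv ?_
  have := hs.2 h (Set.subset_insert _ _)
  exact this (Set.mem_insert _ _)

theorem indep_num (a b : ℕ) : (G a b).indepNum = (a + b) * 3 := by
  obtain ⟨s, hs⟩ := (G a b).maximumIndepSet_exists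
  rw [← (G a b).maximumIndepSet_card_eq_indepNum s hs]
  exact max_card s (SimpleGraph.IsMaximumIndepSet.isMaximalIndepSet s hs)

theorem bip (a b : ℕ) : (G a b).IsBipartite := by
  refine ⟨SimpleGraph.Coloring.mk
    (fun v : V a b => if v.1.isLeft = v.2.2 then (0 : Fin 2) else 1) ?_⟩
  rintro ⟨i, j, c⟩ ⟨i', j', c'⟩ (⟨h1, h2, _⟩ | ⟨h1, h2, h3⟩)
  · simp only at h1 h2
    subst h1
    cases c <;> cases c' <;> cases i <;> simp_all
  · simp only at h1 h2 h3
    subst h1 h2
    cases i <;> cases i' <;> simp_all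

theorem conn {a b : ℕ} (i0 : Fin a) (j0 : Fin b) : (G a b).Connected := by
  have hx : ∀ v : V a b, (G a b).Reachable v (v.1, v.2.1, true) := by
    rintro ⟨i, j, c⟩
    cases c
    · exact SimpleGraph.Adj.reachable (Or.inl ⟨rfl, by simp, Or.inr rfl⟩)
    · exact SimpleGraph.Reachable.refl _
  have h0 : ∀ v : V a b, (G a b).Reachable v (Sum.inl i0, 0, true) := by
    intro v
    refine (hx v).trans ?_
    obtain ⟨i, j, c⟩ := v
    rcases i with i | i
    · have h1 : (G a b).Adj (Sum.inl i, j, true) (Sum.inr j0, 0, true) :=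
        Or.inr ⟨rfl, rfl, by simp⟩
      have h2 : (G a b).Adj (Sum.inr j0, 0, true) (Sum.inl i0, 0, true) :=
        Or.inr ⟨rfl, rfl, by simp⟩
      exact h1.reachable.trans h2.reachable
    · exact SimpleGraph.Adj.reachable (Or.inr ⟨rfl, rfl, by simp⟩)
  have : Nonempty (V a b) := ⟨(Sum.inl i0, 0, true)⟩
  exact ⟨fun u v => (h0 u).trans (h0 v).symm⟩

theorem cnt (a b k : ℕ) : ((G a b).indepSetSet k).ncard = N a b k := by
  unfold N
  congr 1
  ext s
  exact ⟨fun h => ⟨h.1, h.2⟩, fun h => ⟨h.1, h.2⟩⟩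

/-- A connected bipartite very well-covered graph whose independence polynomial is not
log-concave: its coefficient sequence has a strict local minimum at some index
`1 ≤ k ≤ α - 1`. -/
theorem result :
    ∃ (W : Type) (_ : Fintype W) (H : SimpleGraph W),
      H.Connected ∧ H.IsBipartite ∧
      (∀ s : Finset W, Maximal H.IsIndepSet (s : Set W) → s.card = H.indepNum) ∧
      (∀ v : W, ∃ w : W, H.Adj v w) ∧
      Fintype.card W = 2 * H.indepNum ∧
      ∃ k : ℕ, 1 ≤ k ∧ k + 1 ≤ H.indepNum ∧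
        (H.indepSetSet k).ncard ^ 2 <
          (H.indepSetSet (k - 1)).ncard * (H.indepSetSet (k + 1)).ncard ∧
        (H.indepSetSet k).ncard < (H.indepSetSet (k - 1)).ncard ∧
        (H.indepSetSet k).ncard < (H.indepSetSet (k + 1)).ncard := by
  refine ⟨V 91 176, inferInstance, G 91 176, conn 0 0, bip _ _, ?_, no_isolated, ?_, 433,
    by norm_num, ?_, ?_, ?_, ?_⟩
  · intro s hs
    rw [indep_num, max_card s hs]
  · rw [indep_num, card_V]
  · rw [indep_num]; norm_num
  · rw [cnt, cnt, cnt, pow_two]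
    exact Nat.mul_lt_mul'' dip_left dip_right
  · rw [cnt, cnt]; exact dip_left
  · rw [cnt, cnt]; exact dip_right

end Pool.Agent.Results.MP_e4c5f9_co.NotLogConcave
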